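import Pool.Agent.TH713.LP931.Fr0

/-!
# LP931-B1: the volume gain (helper713, for helper931)
-/

set_option autoImplicit false

open MeasureTheory Set Filter
open scoped ENNReal Matrix Pointwise Topology

noncomputable section

namespace Pool.Agent.TH713.LP931

open Pool.Agent.TH931.LP
open Pool.Agent.W686.LP (SB)

variable {n : ℕ} {U V : Type} {F : Fr n U V}

lemma int_pow (n : ℕ) : ∫⁻ t in Ioo (0:ℝ) 1, ENNReal.ofReal ((1 - t) ^ n) =
    ENNReal.ofReal (1 / (n + 1)) := by
  have hi : IntegrableOn (fun t : ℝ => (1 - t) ^ n) (Ioo 0 1) := by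
    refine (Continuous.integrableOn_Icc (a := 0) (b := 1) (by fun_prop)).mono_set
      Ioo_subset_Icc_self
  rw [← ofReal_integral_eq_lintegral_ofReal hi]
  · congr 1
    rw [← integral_Ioc_eq_integral_Ioo, ← intervalIntegral.integral_of_le zero_le_one,
      intervalIntegral.integral_comp_sub_left (fun t : ℝ => t ^ n) 1, integral_pow]
    simp
  · refine (ae_restrict_iff' measurableSet_Ioo).2 (ae_of_all _ fun t ht => ?_)
    exact pow_nonneg (by linarith [ht.2]) _

/-- layer cake -/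
lemma layer (hn : 0 < n) (g : (Fin n → ℝ) → ℝ) (hg0 : ∀ x, 0 ≤ g x) (hgm : Measurable g)
    (hgs : ∀ t : ℝ, 0 < t → ∀ x, g (t • x) = t * g x) :
    ∫⁻ x, ENNReal.ofReal (1 - g x) = ENNReal.ofReal (1 / (n + 1)) * volume {x | g x ≤ 1} := by
  have h1 := lintegral_eq_lintegral_meas_le (volume : Measure (Fin n → ℝ))
    (f := fun x => max (1 - g x) 0) (ae_of_all _ fun x => le_max_right _ _)
    ((measurable_const.sub hgm).max measurable_const).aemeasurable
  have h2 : ∀ x, ENNReal.ofReal (max (1 - g x) 0) = ENNReal.ofReal (1 - g x) := by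
    intro x
    rcases le_total (1 - g x) 0 with h | h
    · rw [max_eq_right h, ENNReal.ofReal_of_nonpos h, ENNReal.ofReal_zero]
    · rw [max_eq_left h]
  simp_rw [h2] at h1
  rw [h1]
  have h3 : ∀ t ∈ Ioi (0:ℝ), t ≠ 1 → volume {x | t ≤ max (1 - g x) 0} =
      (Ioo (0:ℝ) 1).indicator (fun t => ENNReal.ofReal ((1 - t) ^ n)) t * volume {x | g x ≤ 1} := by
    intro t ht ht1
    have ht0 : 0 < t := ht
    have e0 : {x | t ≤ max (1 - g x) 0} = {x | g x ≤ 1 - t} := by
      ext x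
      simp only [mem_ofPred_eq, le_max_iff]
      constructor
      · rintro (h | h)
        · linarith
        · linarith
      · intro h
        left
        linarith
    rw [e0]
    rcases lt_or_gt_of_ne ht1 with h | h
    · rw [indicator_of_mem (show t ∈ Ioo (0:ℝ) 1 from ⟨ht0, h⟩)]
      have hs : 0 < 1 - t := by linarith
      have e1 : {x | g x ≤ 1 - t} = (1 - t) • {x | g x ≤ 1} := by
        ext x
        rw [mem_smul_set_iff_inv_smul_mem₀ hs.ne']
        simp only [mem_ofPred_eq]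
        rw [hgs _ (inv_pos.2 hs), inv_mul_le_iff₀ hs, mul_one]
      rw [e1, Measure.addHaar_smul, Module.finrank_fin_fun, abs_of_pos (pow_pos hs n)]
    · rw [indicator_of_notMem (fun h' => by linarith [h'.2]), zero_mul]
      have e1 : {x | g x ≤ 1 - t} = ∅ := by
        ext x
        simp only [mem_ofPred_eq, mem_empty_iff_false, iff_false, not_le]
        linarith [hg0 x]
      rw [e1, measure_empty]
  rw [setLIntegral_congr_fun_ae (g := fun t => (Ioo (0:ℝ) 1).indicator
    (fun t => ENNReal.ofReal ((1 - t) ^ n)) t * volume {x | g x ≤ 1}) measurableSet_Ioi ?_]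
  · rw [lintegral_mul_const _ (Measurable.indicator (by fun_prop) measurableSet_Ioo)]
    congr 1
    rw [lintegral_indicator measurableSet_Ioo, Measure.restrict_restrict measurableSet_Ioo,
      inter_eq_left.2 Ioo_subset_Ioi_self, int_pow]
  · have : ∀ᵐ t : ℝ, t ≠ 1 := Measure.ae_ne volume 1
    filter_upwards [this] with t ht1 ht
    exact h3 t ht ht1

/-- the linear map of the facet `a` -/
def Sa [Fintype V] (F : Fr n U V) (κ : ℝ) (a : U) : Matrix (Fin n) (Fin n) ℝ :=
  (1 - κ) • (1 + Matrix.replicateCol Unit ((κ / (1 - κ)) • ctr F a) *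
    Matrix.replicateRow Unit (F.u a))

lemma Sa_det [Fintype V] (hF : Half F) (hn : 0 < n) {κ : ℝ} (h1 : κ < 1) (a : U) :
    (Sa F κ a).det = (1 - κ) ^ (n - 1) := by
  have h : 1 - κ ≠ 0 := by linarith
  rw [Sa, Matrix.det_smul, Matrix.det_one_add_replicateCol_mul_replicateRow, dotProduct_smul,
    u_ctr hF, Fintype.card_fin]
  obtain ⟨k, rfl⟩ : ∃ k, n = k + 1 := ⟨n - 1, by omega⟩
  rw [Nat.add_sub_cancel, pow_succ, smul_eq_mul]
  field_simp
  ring

lemma Sa_mul [Fintype V] {κ : ℝ} (h1 : κ < 1) (a : U) (x : Fin n → ℝ) :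
    Matrix.toLin' (Sa F κ a) x = (1 - κ) • x + (κ * F.u a ⬝ᵥ x) • ctr F a := by
  have h : 1 - κ ≠ 0 := by linarith
  rw [Matrix.toLin'_apply, Sa, Matrix.smul_mulVec, Matrix.add_mulVec, Matrix.one_mulVec,
    ← Matrix.mulVec_mulVec, smul_add]
  congr 1
  ext i
  simp only [Pi.smul_apply, Matrix.mulVec, dotProduct, Matrix.replicateCol_apply,
    Matrix.replicateRow_apply, Finset.univ_unique, Finset.sum_singleton, smul_eq_mul]
  field_simp

lemma lint_comp [Fintype V] (hF : Half F) (hn : 0 < n) {κ : ℝ} (h1 : κ < 1) (a : U)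
    (f : (Fin n → ℝ) → ℝ≥0∞) (hf : Measurable f) :
    ENNReal.ofReal ((1 - κ) ^ (n - 1)) * ∫⁻ x, f (Matrix.toLin' (Sa F κ a) x) = ∫⁻ z, f z := by
  have hp : 0 < (1 - κ) ^ (n - 1) := pow_pos (by linarith) _
  have hd : (Sa F κ a).det ≠ 0 := by
    rw [Sa_det hF hn h1]
    exact hp.ne'
  have hm := Real.map_matrix_volume_pi_eq_smul_volume_pi hd
  have hmeas : Measurable (Matrix.toLin' (Sa F κ a)) :=
    (LinearMap.continuous_of_finiteDimensional _).measurable
  rw [← lintegral_map hf hmeas, hm, lintegral_smul_measure, smul_eq_mul, ← mul_assoc,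
    Sa_det hF hn h1, ← ENNReal.ofReal_mul hp.le, abs_of_pos (inv_pos.2 hp),
    mul_inv_cancel₀ hp.ne', ENNReal.ofReal_one, one_mul]

variable [Fintype U] [Fintype V] {α : U → V → ℝ} {nu : (Fin n → ℝ) → V → ℝ}

lemma nu_zero (hK : Ker F.dual (fun b a => α a b) nu) (b : V) : nu 0 b = 0 := by
  have := hK.smul 2 two_pos 0 b
  rw [smul_zero] at this
  linarith

/-- the pointwise inequality -/
lemma ptw (hG : Good F) (hk : Ker F.dual (fun b a => α a b) nu) {κ : ℝ} (h0 : 0 < κ) (h1 : κ < 1)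
    {K : Set (Fin n → ℝ)} (hK : SB K) (hH : F.body ⊆ K) (a : U) {x : Fin n → ℝ} (hx0 : x ≠ 0)
    (hx : F.N x ≤ 1) (hxa : F.ft x = a) :
    F.N (Matrix.toLin' (Sa F κ a) x) ≤ 1 ∧ F.ft (Matrix.toLin' (Sa F κ a) x) = a ∧
      ∑ b, nu x b * (1 - GG F K κ a b) ≤
        F.N (Matrix.toLin' (Sa F κ a) x) - gauge K (Matrix.toLin' (Sa F κ a) x) := by
  have hF := hG.half
  have hN := hF.pos x hx0
  have hux : F.u a ⬝ᵥ x = F.N x := by rw [← hxa, hF.eq]
  have hsum : ∑ b, nu x b * (F.u a ⬝ᵥ F.v b) = F.N x := by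
    rw [← hux]
    conv_rhs => rw [← hk.bary x]
    rw [dotProduct_sum]
    refine Finset.sum_congr rfl fun b _ => ?_
    rw [dotProduct_smul, smul_eq_mul]
    rfl
  have hsupp : ∀ b, nu x b * (F.u a ⬝ᵥ F.v b) = nu x b := by
    intro b
    by_cases hb : nu x b = 0
    · rw [hb, zero_mul]
    · have := hk.supp x b hb
      have h2 : F.u a ⬝ᵥ F.v b = 1 := by
        rw [dotProduct_comm, ← hxa]
        exact this
      rw [h2, mul_one]
  simp_rw [hsupp] at hsum
  rw [Sa_mul h1]
  set z := (1 - κ) • x + (κ * F.u a ⬝ᵥ x) • ctr F a with hz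
  have huz : ∀ a', F.u a' ⬝ᵥ z = (1 - κ) * (F.u a' ⬝ᵥ x) + κ * F.N x * (F.u a' ⬝ᵥ ctr F a) := by
    intro a'
    rw [hz, dotProduct_add, dotProduct_smul, dotProduct_smul, hux]
    rfl
  have hza : F.u a ⬝ᵥ z = F.N x := by
    rw [huz, u_ctr hF, hux]
    ring
  have hft : F.ft z = a := by
    by_contra hne
    have h3 := u'_ctr hG (fun h => hne h.symm : a ≠ F.ft z)
    have h4 := huz (F.ft z)
    have h5 := hF.le a z
    have h6 := hF.eq z
    have h7 := hF.le (F.ft z) x
    have h8 : (1 - κ) * (F.u (F.ft z) ⬝ᵥ x) ≤ (1 - κ) * F.N x :=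
      mul_le_mul_of_nonneg_left h7 (by linarith)
    have h9 : κ * F.N x * (F.u (F.ft z) ⬝ᵥ ctr F a) < κ * F.N x * 1 :=
      mul_lt_mul_of_pos_left h3 (mul_pos h0 hN)
    linarith
  have hNz : F.N z = F.N x := by
    rw [← hF.eq z, hft, hza]
  refine ⟨hNz.le.trans hx, hft, ?_⟩
  have hK0 : K ∈ 𝓝 (0 : Fin n → ℝ) := mem_of_superset (body_nhds hF) hH
  have hab : Absorbent ℝ K := absorbent_nhds_zero hK0
  have hz2 : z = ∑ b, nu x b • ((1 - κ) • F.v b + κ • ctr F a) := by
    simp_rw [smul_add, smul_smul]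
    rw [Finset.sum_add_distrib, ← Finset.sum_smul, ← Finset.sum_mul, hsum, hz, hux]
    congr 1
    · simp_rw [mul_comm _ (1 - κ), ← smul_smul]
      rw [← Finset.smul_sum]
      congr 1
      exact (hk.bary x).symm
    · rw [mul_comm]
  have hgz : gauge K z ≤ ∑ b, nu x b * GG F K κ a b := by
    rw [hz2]
    refine (gauge_sum_le hK.conv hab _ _).trans (le_of_eq ?_)
    refine Finset.sum_congr rfl fun b _ => ?_
    rw [gauge_smul_of_nonneg (hk.nonneg x b), smul_eq_mul]
    rfl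
  have h2 : ∑ b, nu x b * (1 - GG F K κ a b) = F.N x - ∑ b, nu x b * GG F K κ a b := by
    simp_rw [mul_sub, mul_one]
    rw [Finset.sum_sub_distrib, hsum]
  rw [h2, hNz]
  linarith

/-- one facet -/
lemma facet (hG : Good F) (hk : Ker F.dual (fun b a => α a b) nu) {κ : ℝ} (h0 : 0 < κ)
    (h1 : κ < 1) {K : Set (Fin n → ℝ)} (hK : SB K) (hH : F.body ⊆ K) (a : U) :
    ENNReal.ofReal ((1 - κ) ^ (n - 1)) * ∑ b, ENNReal.ofReal (1 - GG F K κ a b) *
        (ENNReal.ofReal ((n : ℝ) / (n + 1) * α a b) * volume F.body) ≤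
      ∫⁻ z, {z | F.N z ≤ 1 ∧ F.ft z = a}.indicator
        (fun z => ENNReal.ofReal (F.N z - gauge K z)) z := by
  have hF := hG.half
  have hK0 : K ∈ 𝓝 (0 : Fin n → ℝ) := mem_of_superset (body_nhds hF) hH
  have hms : MeasurableSet {z | F.N z ≤ 1 ∧ F.ft z = a} :=
    (body_closed hF).measurableSet.inter (hF.meas a)
  have hgc : Continuous (gauge K) := continuous_gauge hK.conv hK0
  have hm : Measurable (fun z => ENNReal.ofReal (F.N z - gauge K z)) :=
    ((N_cont hF).sub hgc).measurable.ennreal_ofReal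
  rw [← lint_comp hF hG.n_pos h1 a _ (hm.indicator hms)]
  refine mul_le_mul_right ?_ _
  have hl : ∀ b, ENNReal.ofReal (1 - GG F K κ a b) *
      (ENNReal.ofReal ((n : ℝ) / (n + 1) * α a b) * volume F.body) =
      ∫⁻ x, {x | F.N x ≤ 1 ∧ F.ft x = a}.indicator
        (fun x => ENNReal.ofReal (1 - GG F K κ a b) * ENNReal.ofReal (nu x b)) x := by
    intro b
    have h3 := hk.law b a
    have h4 : volume F.dual.pol = volume F.body := rfl
    rw [h4] at h3
    rw [lintegral_indicator hms, lintegral_const_mul _ (hk.meas b).ennreal_ofReal]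
    congr 1
    exact h3.symm
  simp_rw [hl]
  have hmm : ∀ b, Measurable ({x | F.N x ≤ 1 ∧ F.ft x = a}.indicator
        (fun x => ENNReal.ofReal (1 - GG F K κ a b) * ENNReal.ofReal (nu x b))) := fun b =>
    Measurable.indicator (measurable_const.mul (hk.meas b).ennreal_ofReal) hms
  rw [← lintegral_finsetSum _ fun b _ => hmm b]
  refine lintegral_mono fun x => ?_
  by_cases hx : x ∈ {x | F.N x ≤ 1 ∧ F.ft x = a}
  · simp only [indicator_of_mem hx]
    have h5 : ∀ b, 0 ≤ 1 - GG F K κ a b := fun b => sub_nonneg.2 (GG_le_one hG hH h0 h1 a b)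
    by_cases hx0 : x = 0
    · subst hx0
      simp [nu_zero hk]
    · obtain ⟨h6, h7, h8⟩ := ptw hG hk h0 h1 hK hH a hx0 hx.1 hx.2
      rw [indicator_of_mem (show Matrix.toLin' (Sa F κ a) x ∈ {z | F.N z ≤ 1 ∧ F.ft z = a} from
        ⟨h6, h7⟩)]
      have h9 : ∀ b, ENNReal.ofReal (1 - GG F K κ a b) * ENNReal.ofReal (nu x b) =
          ENNReal.ofReal (nu x b * (1 - GG F K κ a b)) := by
        intro b
        rw [← ENNReal.ofReal_mul (h5 b), mul_comm]
      simp_rw [h9]
      rw [← ENNReal.ofReal_sum_of_nonneg fun b _ => mul_nonneg (hk.nonneg x b) (h5 b)]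
      exact ENNReal.ofReal_le_ofReal h8
  · simp only [indicator_of_notMem hx, Finset.sum_const_zero]
    exact zero_le

theorem b1 : S_b1 := by
  intro n U V _ _ F α nu hG hk κ h0 h1 K hK hH
  have hF := hG.half
  have hn := hG.n_pos
  have hK0 : K ∈ 𝓝 (0 : Fin n → ℝ) := mem_of_superset (body_nhds hF) hH
  have hab : Absorbent ℝ K := absorbent_nhds_zero hK0
  have hgc : Continuous (gauge K) := continuous_gauge hK.conv hK0
  have hfK : volume K ≠ ⊤ := hK.cpt.measure_lt_top.ne
  have hfH : volume F.body ≠ ⊤ := ne_top_of_le_ne_top hfK (measure_mono hH)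
  have hKg : {x | gauge K x ≤ 1} = K := by
    ext x
    rw [mem_ofPred_eq, gauge_le_one_iff_mem_closure hK.conv hK0, hK.cpt.isClosed.closure_eq]
  have hL1 := layer hn (gauge K) (fun x => gauge_nonneg x) hgc.measurable
    (fun t ht x => by rw [gauge_smul_of_nonneg ht.le, smul_eq_mul])
  have hL2 := layer hn F.N (N_nonneg hF) (N_cont hF).measurable (fun t ht x => N_smul hF ht x)
  rw [hKg] at hL1
  have hms : ∀ a, MeasurableSet {z | F.N z ≤ 1 ∧ F.ft z = a} := fun a =>
    (body_closed hF).measurableSet.inter (hF.meas a)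
  have hm : Measurable (fun z => ENNReal.ofReal (F.N z - gauge K z)) :=
    ((N_cont hF).sub hgc).measurable.ennreal_ofReal
  have hmain : (∫⁻ x, ENNReal.ofReal (1 - F.N x)) + ∑ a, ∫⁻ z, {z | F.N z ≤ 1 ∧ F.ft z = a}.indicator
      (fun z => ENNReal.ofReal (F.N z - gauge K z)) z ≤ ∫⁻ x, ENNReal.ofReal (1 - gauge K x) := by
    have hm1 : Measurable fun x => ENNReal.ofReal (1 - F.N x) :=
      (measurable_const.sub (N_cont hF).measurable).ennreal_ofReal
    rw [← lintegral_finsetSum _ fun a _ => hm.indicator (hms a), ← lintegral_add_left hm1]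
    refine lintegral_mono fun x => ?_
    by_cases hx : F.N x ≤ 1
    · have h3 : ∑ a, {z | F.N z ≤ 1 ∧ F.ft z = a}.indicator
          (fun z => ENNReal.ofReal (F.N z - gauge K z)) x = ENNReal.ofReal (F.N x - gauge K x) := by
        rw [Finset.sum_eq_single (F.ft x)]
        · rw [indicator_of_mem]
          exact ⟨hx, rfl⟩
        · intro a _ ha
          rw [indicator_of_notMem]
          rintro ⟨-, h⟩
          exact ha h.symm
        · intro h
          exact absurd (Finset.mem_univ _) h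
      simp only
      rw [h3, ← ENNReal.ofReal_add (by linarith) (sub_nonneg.2 (gauge_le_N hF hH x))]
      exact ENNReal.ofReal_le_ofReal (by linarith)
    · have h3 : ∑ a, {z | F.N z ≤ 1 ∧ F.ft z = a}.indicator
          (fun z => ENNReal.ofReal (F.N z - gauge K z)) x = 0 := by
        refine Finset.sum_eq_zero fun a _ => ?_
        rw [indicator_of_notMem]
        rintro ⟨h, -⟩
        exact hx h
      simp only
      rw [h3, add_zero, ENNReal.ofReal_of_nonpos (by linarith)]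
      exact zero_le
  rw [hL1, hL2] at hmain
  have hsum : ∑ a, ENNReal.ofReal ((1 - κ) ^ (n - 1)) * ∑ b, ENNReal.ofReal (1 - GG F K κ a b) *
        (ENNReal.ofReal ((n : ℝ) / (n + 1) * α a b) * volume F.body) ≤
      ∑ a, ∫⁻ z, {z | F.N z ≤ 1 ∧ F.ft z = a}.indicator
      (fun z => ENNReal.ofReal (F.N z - gauge K z)) z :=
    Finset.sum_le_sum fun a _ => facet hG hk h0 h1 hK hH a
  have hfin := (add_le_add_right hsum _).trans hmain
  -- to real numbers
  have h5 : ∀ a b, 0 ≤ 1 - GG F K κ a b := fun a b => sub_nonneg.2 (GG_le_one hG hH h0 h1 a b)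
  have h6 : ∀ a b, 0 ≤ α a b := fun a b => hk.alpha b a
  have hX : volume F.body = ENNReal.ofReal (volume.real F.body) :=
    (ENNReal.ofReal_toReal hfH).symm
  have hY : volume K = ENNReal.ofReal (volume.real K) := (ENNReal.ofReal_toReal hfK).symm
  have hX0 : 0 ≤ volume.real F.body := measureReal_nonneg
  have hY0 : 0 ≤ volume.real K := measureReal_nonneg
  set X := volume.real F.body with hXd
  set Y := volume.real K with hYd
  have hbody : volume {x | F.N x ≤ 1} = ENNReal.ofReal X := hX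
  rw [hbody, hX, hY] at hfin
  have hp : 0 < (1 - κ) ^ (n - 1) := pow_pos (by linarith) _
  have hn1 : (0:ℝ) < (n:ℝ) + 1 := by positivity
  have hnn : (0:ℝ) ≤ (n:ℝ) / (n + 1) := by positivity
  have e1 : ∀ a b, ENNReal.ofReal (1 - GG F K κ a b) *
      (ENNReal.ofReal ((n : ℝ) / (n + 1) * α a b) * ENNReal.ofReal X) =
      ENNReal.ofReal ((1 - GG F K κ a b) * ((n : ℝ) / (n + 1) * α a b * X)) := by
    intro a b
    rw [← ENNReal.ofReal_mul (mul_nonneg hnn (h6 a b)), ← ENNReal.ofReal_mul (h5 a b)]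
  have t0 : ∀ a b, 0 ≤ (1 - GG F K κ a b) * ((n : ℝ) / (n + 1) * α a b * X) := fun a b =>
    mul_nonneg (h5 a b) (mul_nonneg (mul_nonneg hnn (h6 a b)) hX0)
  have e2 : ∀ a, ENNReal.ofReal ((1 - κ) ^ (n - 1)) * ∑ b, ENNReal.ofReal (1 - GG F K κ a b) *
        (ENNReal.ofReal ((n : ℝ) / (n + 1) * α a b) * ENNReal.ofReal X) =
      ENNReal.ofReal ((1 - κ) ^ (n - 1) *
        ∑ b, (1 - GG F K κ a b) * ((n : ℝ) / (n + 1) * α a b * X)) := by
    intro a
    simp_rw [e1]
    rw [← ENNReal.ofReal_sum_of_nonneg fun b _ => t0 a b, ← ENNReal.ofReal_mul hp.le]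
  have t1 : ∀ a, 0 ≤ (1 - κ) ^ (n - 1) *
        ∑ b, (1 - GG F K κ a b) * ((n : ℝ) / (n + 1) * α a b * X) := fun a =>
    mul_nonneg hp.le (Finset.sum_nonneg fun b _ => t0 a b)
  simp_rw [e2] at hfin
  have hinv : (0:ℝ) ≤ 1 / ((n:ℝ) + 1) := by positivity
  rw [← ENNReal.ofReal_sum_of_nonneg fun a _ => t1 a, ← ENNReal.ofReal_mul hinv,
    ← ENNReal.ofReal_mul hinv, ← ENNReal.ofReal_add (mul_nonneg hinv hX0)
      (Finset.sum_nonneg fun a _ => t1 a), ENNReal.ofReal_le_ofReal_iff (mul_nonneg hinv hY0)]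
    at hfin
  have h7 := mul_le_mul_of_nonneg_left hfin hn1.le
  have e3 : ((n:ℝ) + 1) * (1 / ((n:ℝ) + 1) * Y) = Y := by field_simp
  rw [e3] at h7
  refine le_trans (le_of_eq ?_) h7
  rw [mul_add, mul_add, mul_one]
  congr 1
  · field_simp
  · simp_rw [Finset.mul_sum]
    refine Finset.sum_congr rfl fun a _ => Finset.sum_congr rfl fun b _ => ?_
    field_simp

end Pool.Agent.TH713.LP931
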