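import Pool.Agent.TH931.LP.StmB

/-!
# Basic facts about frames (helper713), for the tasks B1 and B6 of the project LP931
-/

set_option autoImplicit false

open MeasureTheory Set Filter
open scoped ENNReal Matrix Pointwise Topology

noncomputable section

namespace Pool.Agent.TH713.LP931

open Pool.Agent.TH931.LP
open Pool.Agent.W686.LP (SB)

variable {n : ℕ} {U V : Type} {F : Fr n U V}

lemma N_smul (hF : Half F) {t : ℝ} (ht : 0 < t) (x : Fin n → ℝ) : F.N (t • x) = t * F.N x := by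
  rw [← hF.eq (t • x), hF.smul t ht, dotProduct_smul, hF.eq, smul_eq_mul]

lemma N_zero (hF : Half F) : F.N 0 = 0 := by
  have := hF.eq 0
  rw [dotProduct_zero] at this
  exact this.symm

lemma N_nonneg (hF : Half F) (x : Fin n → ℝ) : 0 ≤ F.N x := by
  by_cases h : x = 0
  · subst h
    rw [N_zero hF]
  · exact (hF.pos x h).le

lemma N_smul0 (hF : Half F) {t : ℝ} (ht : 0 ≤ t) (x : Fin n → ℝ) : F.N (t • x) = t * F.N x := by
  rcases ht.eq_or_lt with h | h
  · subst h
    rw [zero_smul, zero_mul, N_zero hF]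
  · exact N_smul hF h x

lemma N_add (hF : Half F) (x y : Fin n → ℝ) : F.N (x + y) ≤ F.N x + F.N y := by
  rw [← hF.eq (x + y), dotProduct_add]
  exact add_le_add (hF.le _ _) (hF.le _ _)

lemma N_cont [Fintype U] (hF : Half F) : Continuous F.N := by
  have hne : (Finset.univ : Finset U).Nonempty := ⟨F.ft 0, Finset.mem_univ _⟩
  have e : F.N = fun x => Finset.univ.sup' hne fun a => F.u a ⬝ᵥ x := by
    ext x
    refine le_antisymm ?_ ?_
    · conv_lhs => rw [← hF.eq x]
      exact Finset.le_sup' (fun a => F.u a ⬝ᵥ x) (Finset.mem_univ (F.ft x))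
    · exact Finset.sup'_le _ _ fun a _ => hF.le a x
  rw [e]
  refine Continuous.finset_sup'_apply hne fun a _ => ?_
  show Continuous fun x : Fin n → ℝ => ∑ i, F.u a i * x i
  fun_prop

lemma body_nhds [Fintype U] (hF : Half F) : F.body ∈ 𝓝 (0 : Fin n → ℝ) := by
  have h1 := (N_cont hF).tendsto 0
  rw [N_zero hF] at h1
  filter_upwards [h1.eventually (gt_mem_nhds one_pos)] with x hx
  exact le_of_lt hx

lemma body_conv (hF : Half F) : Convex ℝ F.body := by
  intro x hx y hy a b ha hb hab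
  show F.N (a • x + b • y) ≤ 1
  have h1 := N_add hF (a • x) (b • y)
  rw [N_smul0 hF ha, N_smul0 hF hb] at h1
  have h2 : a * F.N x ≤ a * 1 := mul_le_mul_of_nonneg_left hx ha
  have h3 : b * F.N y ≤ b * 1 := mul_le_mul_of_nonneg_left hy hb
  linarith

lemma body_closed [Fintype U] (hF : Half F) : IsClosed F.body :=
  isClosed_le (N_cont hF) continuous_const

lemma v_mem (hG : Good F) (b : V) : F.v b ∈ F.body := by
  show F.N (F.v b) ≤ 1
  rw [← hG.half.eq]
  exact hG.le_one _ _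

lemma gauge_le_N (hF : Half F) {K : Set (Fin n → ℝ)} (hK : F.body ⊆ K) (x : Fin n → ℝ) :
    gauge K x ≤ F.N x := by
  by_cases h : x = 0
  · subst h
    rw [gauge_zero]
    exact N_nonneg hF 0
  · have hN := hF.pos x h
    refine gauge_le_of_mem hN.le ⟨(F.N x)⁻¹ • x, hK ?_, ?_⟩
    · show F.N _ ≤ 1
      rw [N_smul hF (inv_pos.2 hN), inv_mul_cancel₀ hN.ne']
    · show F.N x • (F.N x)⁻¹ • x = x
      rw [smul_smul, mul_inv_cancel₀ hN.ne', one_smul]

section ctr

variable [Fintype V]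

open Classical in
lemma ctr_card (hF : Half F) (a : U) :
    (0:ℝ) < ((Finset.univ.filter fun b => F.u a ⬝ᵥ F.v b = 1).card : ℝ) := by
  obtain ⟨b, hb⟩ := hF.hit a
  have : 0 < (Finset.univ.filter fun b => F.u a ⬝ᵥ F.v b = 1).card :=
    Finset.card_pos.2 ⟨b, by simp [hb]⟩
  exact_mod_cast this

lemma u_ctr (hF : Half F) (a : U) : F.u a ⬝ᵥ ctr F a = 1 := by
  classical
  have h0 := ctr_card hF a
  rw [ctr, dotProduct_smul, dotProduct_sum, Finset.sum_congr rfl (g := fun _ => (1:ℝ)), Finset.sum_const,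
    nsmul_eq_mul, mul_one, smul_eq_mul]
  · convert inv_mul_cancel₀ h0.ne'
  · intro b hb
    simpa using hb

lemma u'_ctr (hG : Good F) {a a' : U} (h : a ≠ a') : F.u a' ⬝ᵥ ctr F a < 1 := by
  classical
  have h0 := ctr_card hG.half a
  obtain ⟨b, hb1, hb2⟩ := hG.half.strict a a' h
  rw [ctr, dotProduct_smul, dotProduct_sum, smul_eq_mul, inv_mul_lt_iff₀ (by convert h0), mul_one]
  have h1 : ∑ b ∈ Finset.univ.filter (fun b => F.u a ⬝ᵥ F.v b = 1), F.u a' ⬝ᵥ F.v b <
      ∑ b ∈ Finset.univ.filter (fun b => F.u a ⬝ᵥ F.v b = 1), (1:ℝ) :=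
    Finset.sum_lt_sum (fun b _ => hG.le_one a' b) ⟨b, by simp [hb1], hb2⟩
  rw [Finset.sum_const, nsmul_eq_mul, mul_one] at h1
  convert h1

lemma ctr_mem (hG : Good F) (a : U) : ctr F a ∈ F.body := by
  classical
  show F.N (ctr F a) ≤ 1
  rw [← hG.half.eq]
  by_cases h : a = F.ft (ctr F a)
  · rw [← h]
    exact (u_ctr hG.half a).le
  · exact (u'_ctr hG h).le

lemma GG_le_one (hG : Good F) {K : Set (Fin n → ℝ)} (hK : F.body ⊆ K) {κ : ℝ} (h0 : 0 < κ)
    (h1 : κ < 1) (a : U) (b : V) : GG F K κ a b ≤ 1 := by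
  refine (gauge_le_N hG.half hK _).trans ?_
  exact body_conv hG.half (v_mem hG b) (ctr_mem hG a) (by linarith) h0.le (by ring)

end ctr

end Pool.Agent.TH713.LP931
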